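import Mathlib
import Pool.Agent.H826R2.Wein.Bridge

/-! Weinstein conjecture: closed Reeb orbits for contact forms which have, on a covering with at
least two ends (or a compact covering), a locally free torus symmetry normalised by the deck group.
All monodromies in `GL(m, ℤ)` are allowed. -/

open scoped Topology ContDiff Manifold
open Pool.Agent.H826R2.WStmt

namespace Pool.Agent.Results.MP_e3ee0c_gt.LocalTorusSymmetry

universe u v w x

theorem result
    {E : Type u} [NormedAddCommGroup E] [NormedSpace ℝ E] [FiniteDimensional ℝ E]
    -- a closed manifold `M` with a contact form `α` and its Reeb field `R`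
    {M : Type v} [TopologicalSpace M] [ChartedSpace E M] [IsManifold 𝓘(ℝ, E) ∞ M]
    [T2Space M] [CompactSpace M]
    (α : M → Cov E) (hα : IsContact α) (R : M → E) (hR : IsReeb α R)
    -- a regular covering `q : P → M` with deck group `Γ`
    {P : Type w} [TopologicalSpace P] [ChartedSpace E P] [IsManifold 𝓘(ℝ, E) ∞ P]
    [T2Space P] [SigmaCompactSpace P] [ConnectedSpace P]
    {Γ : Type x} [Group Γ] [MulAction Γ P] (q : P → M) (hq : IsQuotientMap E q Γ)
    -- a locally free action of an `m`-torus on `P` preserving the lifted contact form
    {m : ℕ} (hm : 0 < m) (A : TorusAction (pull (E := E) q α) m)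
    -- which is normalised by the deck group
    (hA : Normalises Γ A.act)
    -- `P` is compact or has at least two ends
    (hE : CompactSpace P ∨ TwoEnds P) :
    -- the Reeb flow of `α` on `M` has a periodic orbit
    ∃ (c : ℝ → M) (T : ℝ), IsPeriodicOrbit R c T :=
  exists_periodic α hα R hR q hq hm A hA hE

end Pool.Agent.Results.MP_e3ee0c_gt.LocalTorusSymmetry
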