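import Mathlib
import Pool.Agent.H826R2.Wein.Main3

/-! Weinstein conjecture: closed Reeb orbits for contact forms with a non-commutative
finite-dimensional algebra of bounded first integrals on some covering. -/

open scoped Topology ContDiff Manifold
open Pool.Agent.H826R2.WStmt

namespace Pool.Agent.Results.MP_e3ee0c_gt.NonabelianLocalSymmetry

universe u v w x

theorem result
    {E : Type u} [NormedAddCommGroup E] [NormedSpace ℝ E] [FiniteDimensional ℝ E]
    -- a closed manifold `M` with a contact form `α` and its Reeb field `R`
    {M : Type v} [TopologicalSpace M] [ChartedSpace E M] [IsManifold 𝓘(ℝ, E) ∞ M]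
    [T2Space M] [CompactSpace M]
    (α : M → Cov E) (hα : IsContact α) (R : M → E) (hR : IsReeb α R)
    -- a regular covering `q : P → M` with deck group `Γ`
    {P : Type w} [TopologicalSpace P] [ChartedSpace E P] [IsManifold 𝓘(ℝ, E) ∞ P]
    [T2Space P] [SigmaCompactSpace P]
    {Γ : Type x} [Group Γ] [MulAction Γ P] (q : P → M) (hq : IsQuotientMap E q Γ)
    -- finitely many bounded first integrals on `P` whose span is invariant under `Γ` and closed
    -- under the contact bracket
    {m : ℕ} (f : Fin m → P → ℝ) (hf : LocalSymmetries Γ q R (pull (E := E) q α) f)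
    -- the bracket is not identically zero
    (hne : ∃ (i j : Fin m) (x : P) (X : E),
      IsHam (pull (E := E) q α) (f i) x X ∧ dF (f j) x X ≠ 0) :
    -- the Reeb flow of `α` on `M` has a periodic orbit
    ∃ (c : ℝ → M) (T : ℝ), IsPeriodicOrbit R c T :=
  exists_periodic_nonabelian α hα R hR q hq f hf hne

end Pool.Agent.Results.MP_e3ee0c_gt.NonabelianLocalSymmetry
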