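import Mathlib
import Pool.Agent.H826R2.Wein.Main4

/-! Weinstein conjecture: closed Reeb orbits for contact forms with a local torus symmetry of any
rank and virtually solvable monodromy; the number of ends of the covering is arbitrary. -/

open scoped Topology ContDiff Manifold
open Pool.Agent.H826R2.WStmt

namespace Pool.Agent.Results.MP_e3ee0c_gt.SolvableMonodromy

universe u v w x

theorem result
    {E : Type u} [NormedAddCommGroup E] [NormedSpace ℝ E] [FiniteDimensional ℝ E]
    -- a closed manifold `M` with a contact form `α` and its Reeb field `R`
    {M : Type v} [TopologicalSpace M] [ChartedSpace E M] [IsManifold 𝓘(ℝ, E) ∞ M]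
    [T2Space M] [CompactSpace M]
    (α : M → Cov E) (hα : IsContact α) (R : M → E) (hR : IsReeb α R)
    -- a regular covering `q : P → M` with deck group `Γ`
    {P : Type w} [TopologicalSpace P] [ChartedSpace E P] [IsManifold 𝓘(ℝ, E) ∞ P]
    [T2Space P] [SigmaCompactSpace P] [Nonempty P]
    {Γ : Type x} [Group Γ] [MulAction Γ P] (q : P → M) (hq : IsQuotientMap E q Γ)
    -- a locally free action of an `m`-torus on `P`, `m ≥ 1`, preserving the lifted contact form
    {m : ℕ} (hm : 0 < m) (A : TorusAction (pull (E := E) q α) m)
    -- which is normalised by the deck group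
    (hA : Normalises Γ A.act)
    -- with virtually solvable monodromy
    (hs : SolvableMonodromy Γ A.act) :
    -- the Reeb flow of `α` on `M` has a periodic orbit
    ∃ (c : ℝ → M) (T : ℝ), IsPeriodicOrbit R c T :=
  exists_periodic_solvable α hα R hR q hq hm A hA hs

end Pool.Agent.Results.MP_e3ee0c_gt.SolvableMonodromy
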